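import Mathlib

/-!
# Polynomial identities in three variables, checked by one evaluation (Kronecker substitution)

`Ex` are expressions for polynomials in `x, y, z` with integer coefficients.  `Ex.ev` evaluates in a
commutative ring, `Ex.mj` is a majorant (all signs made positive).  `Ex.zero_of` : an expression which
vanishes at one triple of naturals `(X, Y, Z)`, large against its majorant, vanishes identically.
-/

namespace Pool.Agent.Helper71_KRN

open Polynomial

/-! ## packed polynomials -/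

section defs
variable {R : Type*}

/-- Horner value of the lowest `n` digits of `Q` in base `2 ^ w`, each lowered by `2 ^ (w - 1)` -/
def row [CommRing R] (w : ℕ) (x : R) : ℕ → ℕ → R
  | 0, _ => 0
  | n + 1, Q => (((Q % 2 ^ w : ℕ) : R) - ((2 ^ (w - 1) : ℕ) : R)) + x * row w x n (Q / 2 ^ w)

/-- a polynomial in `x, y`; `n :: l` : number of digits for each power of `y` -/
def pln [CommRing R] (w : ℕ) (x y : R) : List ℕ → ℕ → R
  | [], _ => 0
  | n :: l, Q => row w x n Q + y * pln w x y l (Q / 2 ^ (w * n))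

/-- a polynomial in `x, y, z` -/
def vol [CommRing R] (w : ℕ) (x y z : R) : List (List ℕ) → ℕ → R
  | [], _ => 0
  | s :: l, Q => pln w x y s Q + z * vol w x y z l (Q / 2 ^ (w * s.sum))

/-- all digits one -/
def jrow [CommSemiring R] (x : R) : ℕ → R
  | 0 => 0
  | n + 1 => 1 + x * jrow x n

/-- all digits one -/
def jpln [CommSemiring R] (x y : R) : List ℕ → R
  | [] => 0
  | n :: l => jrow x n + y * jpln x y l

/-- all digits one -/
def jvol [CommSemiring R] (x y z : R) : List (List ℕ) → R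
  | [] => 0
  | s :: l => jpln x y s + z * jvol x y z l

/-- sum of squares of packed polynomials -/
def sqs [CommRing R] (w : ℕ) (x y z : R) (sh : List (List ℕ)) : List ℕ → R
  | [] => 0
  | Q :: l => vol w x y z sh Q ^ 2 + sqs w x y z sh l

/-- a monomial -/
def mon [CommSemiring R] (x y z : R) (a : ℕ × ℕ × ℕ) : R := x ^ a.1 * (y ^ a.2.1 * z ^ a.2.2)

/-- sum of `c * (m + m') ^ 2` (`true`) and `c * (m - m') ^ 2` (`false`), `m`, `m'` monomials -/
def bns [CommRing R] (x y z : R) : List (ℕ × (ℕ × ℕ × ℕ) × (ℕ × ℕ × ℕ) × Bool) → R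
  | [] => 0
  | t :: l => (t.1 : R) * (if t.2.2.2 = true then (mon x y z t.2.1 + mon x y z t.2.2.1) ^ 2
      else (mon x y z t.2.1 - mon x y z t.2.2.1) ^ 2) + bns x y z l

/-- majorant of `bns` -/
def jbns [CommSemiring R] (x y z : R) : List (ℕ × (ℕ × ℕ × ℕ) × (ℕ × ℕ × ℕ) × Bool) → R
  | [] => 0
  | t :: l => (t.1 : R) * (mon x y z t.2.1 + mon x y z t.2.2.1) ^ 2 + jbns x y z l

end defs

/-- expressions for polynomials in three variables over the integers -/
inductive Ex : Type
  | cst (c : ℤ)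
  | vx
  | vy
  | vz
  | add (a b : Ex)
  | sub (a b : Ex)
  | mul (a b : Ex)
  | pol (w : ℕ) (sh : List (List ℕ)) (Q : ℕ)
  | sos (w : ℕ) (sh : List (List ℕ)) (l : List ℕ)
  | bin (l : List (ℕ × (ℕ × ℕ × ℕ) × (ℕ × ℕ × ℕ) × Bool))

/-- value in a commutative ring -/
def Ex.ev {R : Type*} [CommRing R] (x y z : R) : Ex → R
  | .cst c => (c : R)
  | .vx => x
  | .vy => y
  | .vz => z
  | .add a b => a.ev x y z + b.ev x y z
  | .sub a b => a.ev x y z - b.ev x y z
  | .mul a b => a.ev x y z * b.ev x y z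
  | .pol w sh Q => vol w x y z sh Q
  | .sos w sh l => sqs w x y z sh l
  | .bin l => bns x y z l

/-- value of the majorant -/
def Ex.mj {R : Type*} [CommSemiring R] (x y z : R) : Ex → R
  | .cst c => (c.natAbs : R)
  | .vx => x
  | .vy => y
  | .vz => z
  | .add a b => a.mj x y z + b.mj x y z
  | .sub a b => a.mj x y z + b.mj x y z
  | .mul a b => a.mj x y z * b.mj x y z
  | .pol w sh _ => ((2 ^ w : ℕ) : R) * jvol x y z sh
  | .sos w sh l => (l.length : R) * (((2 ^ w : ℕ) : R) * jvol x y z sh) ^ 2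
  | .bin l => jbns x y z l

/-! ## naturality -/

section nat
variable {R S : Type*}

theorem row_hom [CommRing R] [CommRing S] (f : R →+* S) (w : ℕ) (x : R) (n Q : ℕ) :
    f (row w x n Q) = row w (f x) n Q := by
  induction n generalizing Q with
  | zero => simp [row]
  | succ n ih => simp only [row, map_add, map_sub, map_mul, map_natCast, ih]

theorem pln_hom [CommRing R] [CommRing S] (f : R →+* S) (w : ℕ) (x y : R) (l : List ℕ) (Q : ℕ) :
    f (pln w x y l Q) = pln w (f x) (f y) l Q := by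
  induction l generalizing Q with
  | nil => simp [pln]
  | cons n l ih => simp only [pln, map_add, map_mul, row_hom, ih]

theorem vol_hom [CommRing R] [CommRing S] (f : R →+* S) (w : ℕ) (x y z : R) (l : List (List ℕ))
    (Q : ℕ) : f (vol w x y z l Q) = vol w (f x) (f y) (f z) l Q := by
  induction l generalizing Q with
  | nil => simp [vol]
  | cons n l ih => simp only [vol, map_add, map_mul, pln_hom, ih]

theorem jrow_hom [CommSemiring R] [CommSemiring S] (f : R →+* S) (x : R) (n : ℕ) :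
    f (jrow x n) = jrow (f x) n := by
  induction n with
  | zero => simp [jrow]
  | succ n ih => simp only [jrow, map_add, map_mul, map_one, ih]

theorem jpln_hom [CommSemiring R] [CommSemiring S] (f : R →+* S) (x y : R) (l : List ℕ) :
    f (jpln x y l) = jpln (f x) (f y) l := by
  induction l with
  | nil => simp [jpln]
  | cons n l ih => simp only [jpln, map_add, map_mul, jrow_hom, ih]

theorem jvol_hom [CommSemiring R] [CommSemiring S] (f : R →+* S) (x y z : R) (l : List (List ℕ)) :
    f (jvol x y z l) = jvol (f x) (f y) (f z) l := by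
  induction l with
  | nil => simp [jvol]
  | cons n l ih => simp only [jvol, map_add, map_mul, jpln_hom, ih]

theorem sqs_hom [CommRing R] [CommRing S] (f : R →+* S) (w : ℕ) (x y z : R) (sh : List (List ℕ))
    (l : List ℕ) : f (sqs w x y z sh l) = sqs w (f x) (f y) (f z) sh l := by
  induction l with
  | nil => simp [sqs]
  | cons n l ih => simp only [sqs, map_add, map_pow, vol_hom, ih]

theorem mon_hom [CommSemiring R] [CommSemiring S] (f : R →+* S) (x y z : R) (a : ℕ × ℕ × ℕ) :
    f (mon x y z a) = mon (f x) (f y) (f z) a := by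
  simp only [mon, map_mul, map_pow]

theorem bns_hom [CommRing R] [CommRing S] (f : R →+* S) (x y z : R)
    (l : List (ℕ × (ℕ × ℕ × ℕ) × (ℕ × ℕ × ℕ) × Bool)) :
    f (bns x y z l) = bns (f x) (f y) (f z) l := by
  induction l with
  | nil => simp [bns]
  | cons t l ih =>
    by_cases h : t.2.2.2 = true
    · simp only [bns, h, if_true, map_add, map_mul, map_pow, map_natCast, mon_hom, ih]
    · simp only [bns, h, if_false, map_add, map_sub, map_mul, map_pow, map_natCast, mon_hom, ih,
        Bool.false_eq_true]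

theorem jbns_hom [CommSemiring R] [CommSemiring S] (f : R →+* S) (x y z : R)
    (l : List (ℕ × (ℕ × ℕ × ℕ) × (ℕ × ℕ × ℕ) × Bool)) :
    f (jbns x y z l) = jbns (f x) (f y) (f z) l := by
  induction l with
  | nil => simp [jbns]
  | cons t l ih => simp only [jbns, map_add, map_mul, map_pow, map_natCast, mon_hom, ih]

theorem Ex.ev_hom [CommRing R] [CommRing S] (f : R →+* S) (x y z : R) (e : Ex) :
    f (e.ev x y z) = e.ev (f x) (f y) (f z) := by
  induction e with
  | cst c => simp only [Ex.ev, map_intCast]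
  | vx => rfl
  | vy => rfl
  | vz => rfl
  | add a b ha hb => simp only [Ex.ev, map_add, ha, hb]
  | sub a b ha hb => simp only [Ex.ev, map_sub, ha, hb]
  | mul a b ha hb => simp only [Ex.ev, map_mul, ha, hb]
  | pol w sh Q => simp only [Ex.ev, vol_hom]
  | sos w sh l => simp only [Ex.ev, sqs_hom]
  | bin l => simp only [Ex.ev, bns_hom]

theorem Ex.mj_hom [CommSemiring R] [CommSemiring S] (f : R →+* S) (x y z : R) (e : Ex) :
    f (e.mj x y z) = e.mj (f x) (f y) (f z) := by
  induction e with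
  | cst c => simp only [Ex.mj, map_natCast]
  | vx => rfl
  | vy => rfl
  | vz => rfl
  | add a b ha hb => simp only [Ex.mj, map_add, ha, hb]
  | sub a b ha hb => simp only [Ex.mj, map_add, ha, hb]
  | mul a b ha hb => simp only [Ex.mj, map_mul, ha, hb]
  | pol w sh Q => simp only [Ex.mj, map_mul, map_natCast, jvol_hom]
  | sos w sh l => simp only [Ex.mj, map_mul, map_pow, map_natCast, jvol_hom]
  | bin l => simp only [Ex.mj, jbns_hom]

end nat

/-! ## majorants -/

/-- closure properties of a relation `element, majorant` -/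
structure Good {R : Type*} [CommRing R] (ρ : R → R → Prop) : Prop where
  zero : ρ 0 0
  one : ρ 1 1
  add : ∀ {a A b B}, ρ a A → ρ b B → ρ (a + b) (A + B)
  mul : ∀ {a A b B}, ρ a A → ρ b B → ρ (a * b) (A * B)
  neg : ∀ {a A}, ρ a A → ρ (-a) A
  weak : ∀ {a A}, ρ a A → ρ 0 A

/-- the relation for coefficients -/
def Lift {R : Type*} [CommRing R] (ρ : R → R → Prop) (p P : R[X]) : Prop :=
  ∀ i, ρ (p.coeff i) (P.coeff i)

/-- the relation for integers -/
def M0 (a A : ℤ) : Prop := |a| ≤ A

theorem good0 : Good M0 where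
  zero := by simp [M0]
  one := by simp [M0]
  add := fun {a A b B} ha hb => (abs_add_le a b).trans (add_le_add ha hb)
  mul := fun {a A b B} ha hb => by
    unfold M0 at *
    rw [abs_mul]
    exact mul_le_mul ha hb (abs_nonneg _) ((abs_nonneg _).trans ha)
  neg := fun {a A} ha => by
    unfold M0 at *
    rwa [abs_neg]
  weak := fun {a A} ha => by
    unfold M0 at *
    simpa using (abs_nonneg _).trans ha

section good
variable {R : Type*} [CommRing R] {ρ : R → R → Prop}

theorem Good.sum (h : Good ρ) {ι : Type*} (s : Finset ι) (f g : ι → R)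
    (hfg : ∀ i ∈ s, ρ (f i) (g i)) : ρ (∑ i ∈ s, f i) (∑ i ∈ s, g i) := by
  classical
  induction s using Finset.induction_on with
  | empty => simpa using h.zero
  | insert a s ha ih =>
    rw [Finset.sum_insert ha, Finset.sum_insert ha]
    exact h.add (hfg a (Finset.mem_insert_self a s))
      (ih fun i hi => hfg i (Finset.mem_insert_of_mem hi))

theorem Good.lift (h : Good ρ) : Good (Lift ρ) where
  zero := fun i => by simpa using h.zero
  one := fun i => by
    rw [coeff_one]
    by_cases hi : i = 0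
    · rw [if_pos hi]; exact h.one
    · rw [if_neg hi]; exact h.zero
  add := fun {a A b B} ha hb i => by
    rw [coeff_add, coeff_add]
    exact h.add (ha i) (hb i)
  mul := fun {a A b B} ha hb i => by
    rw [coeff_mul, coeff_mul]
    exact h.sum _ _ _ fun q _ => h.mul (ha q.1) (hb q.2)
  neg := fun {a A} ha i => by
    rw [coeff_neg]
    exact h.neg (ha i)
  weak := fun {a A} ha i => by
    rw [coeff_zero]
    exact h.weak (ha i)

theorem Good.X (h : Good ρ) : Lift ρ (X : R[X]) X := fun i => by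
  rw [coeff_X]
  by_cases hi : 1 = i
  · rw [if_pos hi]; exact h.one
  · rw [if_neg hi]; exact h.zero

theorem Good.C (h : Good ρ) {a A : R} (ha : ρ a A) : Lift ρ (C a) (C A) := fun i => by
  rw [coeff_C, coeff_C]
  by_cases hi : i = 0
  · rw [if_pos hi, if_pos hi]; exact ha
  · rw [if_neg hi, if_neg hi]; exact h.zero

theorem Good.nat (h : Good ρ) (n : ℕ) : ρ (n : R) (n : R) := by
  induction n with
  | zero => simpa using h.zero
  | succ n ih =>
    rw [Nat.cast_succ]
    exact h.add ih h.one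

theorem Good.int (h : Good ρ) (c : ℤ) : ρ (c : R) (c.natAbs : R) := by
  rcases Int.natAbs_eq c with hc | hc
  · have : (c : R) = (c.natAbs : R) := by
      conv_lhs => rw [hc]
      simp
    rw [this]
    exact h.nat _
  · have : (c : R) = -(c.natAbs : R) := by
      conv_lhs => rw [hc]
      simp
    rw [this]
    exact h.neg (h.nat _)

theorem Good.le (h : Good ρ) {c : ℤ} {m : ℕ} (hc : c.natAbs ≤ m) : ρ (c : R) (m : R) := by
  obtain ⟨k, rfl⟩ := Nat.exists_eq_add_of_le hc
  have h1 := h.add (h.int c) (h.weak (h.nat k))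
  rwa [add_zero, ← Nat.cast_add] at h1

theorem Good.dig (h : Good ρ) (w Q : ℕ) :
    ρ (((Q % 2 ^ w : ℕ) : R) - ((2 ^ (w - 1) : ℕ) : R)) ((2 ^ w : ℕ) : R) := by
  have h1 : ((((Q % 2 ^ w : ℕ) : ℤ) - ((2 ^ (w - 1) : ℕ) : ℤ) : ℤ) : R) =
      ((Q % 2 ^ w : ℕ) : R) - ((2 ^ (w - 1) : ℕ) : R) := by
    rw [Int.cast_sub, Int.cast_natCast, Int.cast_natCast]
  rw [← h1]
  refine h.le ?_
  have h2 : Q % 2 ^ w < 2 ^ w := Nat.mod_lt _ (by positivity)
  have h3 : 2 ^ (w - 1) ≤ 2 ^ w := Nat.pow_le_pow_right (by norm_num) (by omega)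
  generalize Q % 2 ^ w = u at h2 ⊢
  generalize 2 ^ (w - 1) = v at h3 ⊢
  generalize 2 ^ w = m at h2 h3 ⊢
  omega

theorem Good.row (h : Good ρ) (w : ℕ) {x : R} (hx : ρ x x) (n Q : ℕ) :
    ρ (row w x n Q) (((2 ^ w : ℕ) : R) * jrow x n) := by
  induction n generalizing Q with
  | zero => simpa [Helper71_KRN.row, jrow] using h.zero
  | succ n ih =>
    have e : ((2 ^ w : ℕ) : R) * jrow x (n + 1) =
        ((2 ^ w : ℕ) : R) + x * (((2 ^ w : ℕ) : R) * jrow x n) := by
      rw [jrow]; ring
    rw [e, Helper71_KRN.row]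
    exact h.add (h.dig w Q) (h.mul hx (ih _))

theorem Good.pln (h : Good ρ) (w : ℕ) {x y : R} (hx : ρ x x) (hy : ρ y y) (l : List ℕ) (Q : ℕ) :
    ρ (pln w x y l Q) (((2 ^ w : ℕ) : R) * jpln x y l) := by
  induction l generalizing Q with
  | nil => simpa [Helper71_KRN.pln, jpln] using h.zero
  | cons n l ih =>
    have e : ((2 ^ w : ℕ) : R) * jpln x y (n :: l) =
        ((2 ^ w : ℕ) : R) * jrow x n + y * (((2 ^ w : ℕ) : R) * jpln x y l) := by
      rw [jpln]; ring
    rw [e, Helper71_KRN.pln]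
    exact h.add (h.row w hx n Q) (h.mul hy (ih _))

theorem Good.vol (h : Good ρ) (w : ℕ) {x y z : R} (hx : ρ x x) (hy : ρ y y) (hz : ρ z z)
    (l : List (List ℕ)) (Q : ℕ) :
    ρ (vol w x y z l Q) (((2 ^ w : ℕ) : R) * jvol x y z l) := by
  induction l generalizing Q with
  | nil => simpa [Helper71_KRN.vol, jvol] using h.zero
  | cons n l ih =>
    have e : ((2 ^ w : ℕ) : R) * jvol x y z (n :: l) =
        ((2 ^ w : ℕ) : R) * jpln x y n + z * (((2 ^ w : ℕ) : R) * jvol x y z l) := by
      rw [jvol]; ring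
    rw [e, Helper71_KRN.vol]
    exact h.add (h.pln w hx hy n Q) (h.mul hz (ih _))

theorem Good.pow (h : Good ρ) {a A : R} (ha : ρ a A) (n : ℕ) : ρ (a ^ n) (A ^ n) := by
  induction n with
  | zero => simpa using h.one
  | succ n ih =>
    rw [pow_succ, pow_succ]
    exact h.mul ih ha

theorem Good.sqs (h : Good ρ) (w : ℕ) {x y z : R} (hx : ρ x x) (hy : ρ y y) (hz : ρ z z)
    (sh : List (List ℕ)) (l : List ℕ) :
    ρ (sqs w x y z sh l) ((l.length : R) * (((2 ^ w : ℕ) : R) * jvol x y z sh) ^ 2) := by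
  induction l with
  | nil => simpa [Helper71_KRN.sqs] using h.zero
  | cons Q l ih =>
    have e : (((Q :: l).length : ℕ) : R) * (((2 ^ w : ℕ) : R) * jvol x y z sh) ^ 2 =
        (((2 ^ w : ℕ) : R) * jvol x y z sh) ^ 2 +
          (l.length : R) * (((2 ^ w : ℕ) : R) * jvol x y z sh) ^ 2 := by
      rw [List.length_cons, Nat.cast_succ]; ring
    rw [e, Helper71_KRN.sqs]
    exact h.add (h.pow (h.vol w hx hy hz sh Q) 2) ih

theorem Good.mon (h : Good ρ) {x y z : R} (hx : ρ x x) (hy : ρ y y) (hz : ρ z z)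
    (a : ℕ × ℕ × ℕ) : ρ (mon x y z a) (mon x y z a) :=
  h.mul (h.pow hx _) (h.mul (h.pow hy _) (h.pow hz _))

theorem Good.bns (h : Good ρ) {x y z : R} (hx : ρ x x) (hy : ρ y y) (hz : ρ z z)
    (l : List (ℕ × (ℕ × ℕ × ℕ) × (ℕ × ℕ × ℕ) × Bool)) :
    ρ (bns x y z l) (jbns x y z l) := by
  induction l with
  | nil => simpa [Helper71_KRN.bns, jbns] using h.zero
  | cons t l ih =>
    rw [Helper71_KRN.bns, jbns]
    refine h.add (h.mul (h.nat _) ?_) ih
    by_cases ht : t.2.2.2 = true
    · rw [if_pos ht]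
      exact h.pow (h.add (h.mon hx hy hz _) (h.mon hx hy hz _)) 2
    · rw [if_neg ht]
      refine h.pow ?_ 2
      rw [sub_eq_add_neg]
      exact h.add (h.mon hx hy hz _) (h.neg (h.mon hx hy hz _))

theorem Good.ex (h : Good ρ) {x y z : R} (hx : ρ x x) (hy : ρ y y) (hz : ρ z z) (e : Ex) :
    ρ (e.ev x y z) (e.mj x y z) := by
  induction e with
  | cst c => exact h.int c
  | vx => exact hx
  | vy => exact hy
  | vz => exact hz
  | add a b ha hb => exact h.add ha hb
  | sub a b ha hb =>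
    rw [Ex.ev, Ex.mj, sub_eq_add_neg]
    exact h.add ha (h.neg hb)
  | mul a b ha hb => exact h.mul ha hb
  | pol w sh Q => exact h.vol w hx hy hz sh Q
  | sos w sh l => exact h.sqs w hx hy hz sh l
  | bin l => exact h.bns hx hy hz l

/-- `ψ` is bounded by the majorant -/
def Bd (ρ : R → R → Prop) (ψ : R →+* ℤ) : Prop := ∀ a A, ρ a A → |ψ a| ≤ ψ A

theorem Bd.nonneg {ψ : R →+* ℤ} (hb : Bd ρ ψ) {a A : R} (ha : ρ a A) : 0 ≤ ψ A :=
  (abs_nonneg _).trans (hb a A ha)

theorem Bd.lift {ψ : R →+* ℤ} (hb : Bd ρ ψ) {t : ℤ} (ht : 0 ≤ t) :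
    Bd (Lift ρ) (eval₂RingHom ψ t) := by
  intro p P hp
  set N := max p.natDegree P.natDegree + 1 with hN
  have e1 : eval₂RingHom ψ t p = ∑ i ∈ Finset.range N, ψ (p.coeff i) * t ^ i :=
    eval₂_eq_sum_range' ψ (by omega) t
  have e2 : eval₂RingHom ψ t P = ∑ i ∈ Finset.range N, ψ (P.coeff i) * t ^ i :=
    eval₂_eq_sum_range' ψ (by omega) t
  rw [e1, e2]
  refine (Finset.abs_sum_le_sum_abs _ _).trans (Finset.sum_le_sum fun i _ => ?_)
  rw [abs_mul, abs_of_nonneg (pow_nonneg ht i)]
  exact mul_le_mul_of_nonneg_right (hb _ _ (hp i)) (pow_nonneg ht i)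

theorem Bd.coeff {ψ : R →+* ℤ} (hb : Bd ρ ψ) {p P : R[X]} (hp : Lift ρ p P) (k : ℕ) :
    ψ (P.coeff k) ≤ eval₂RingHom ψ 1 P := by
  set N := max (P.natDegree) k + 1 with hN
  have e2 : eval₂RingHom ψ 1 P = ∑ i ∈ Finset.range N, ψ (P.coeff i) * 1 ^ i :=
    eval₂_eq_sum_range' ψ (by omega) 1
  rw [e2]
  have h1 := Finset.single_le_sum (f := fun i => ψ (P.coeff i) * 1 ^ i) (s := Finset.range N)
    (fun i _ => by
      have := hb.nonneg (hp i)
      simpa using this) (a := k) (by rw [Finset.mem_range]; omega)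
  simpa using h1

end good

/-! ## the identity test -/

theorem dig_zero (n : ℕ) : ∀ (q : ℤ[X]) (t : ℤ), q.natDegree ≤ n → (∀ k, |q.coeff k| < t) →
    q.eval t = 0 → q = 0 := by
  induction n with
  | zero =>
    intro q t hn h h0
    have h1 := eq_C_of_natDegree_le_zero hn
    rw [h1, eval_C] at h0
    rw [h1, h0, C_0]
  | succ n ih =>
    intro q t hn h h0
    have hq := divX_mul_X_add q
    have ht : 0 < t := (abs_nonneg _).trans_lt (h 0)
    have h1 : q.divX.eval t * t + q.coeff 0 = 0 := by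
      have := congrArg (eval t) hq
      rw [eval_add, eval_mul, eval_X, eval_C, h0] at this
      exact this
    have h2 : q.coeff 0 = 0 := by
      refine Int.eq_zero_of_abs_lt_dvd (m := t) ⟨-q.divX.eval t, ?_⟩ (h 0)
      linarith
    have h3 : q.divX.eval t = 0 := by
      rw [h2, add_zero] at h1
      rcases mul_eq_zero.1 h1 with h3 | h3
      · exact h3
      · omega
    have h4 : q.divX = 0 := by
      refine ih q.divX t ?_ (fun k => ?_) h3
      · rw [natDegree_divX_eq_natDegree_tsub_one]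
        omega
      · rw [coeff_divX]
        exact h (k + 1)
    rw [← hq, h4, h2, C_0, zero_mul, add_zero]

theorem coeff_zero_of {R : Type*} [CommRing R] (ψ : R →+* ℤ) (p : R[X]) (t : ℤ)
    (h : ∀ k, |ψ (p.coeff k)| < t) (h0 : eval₂RingHom ψ t p = 0) (k : ℕ) :
    ψ (p.coeff k) = 0 := by
  have h1 : p.map ψ = 0 := by
    refine dig_zero _ (p.map ψ) t le_rfl (fun k => ?_) ?_
    · rw [coeff_map]
      exact h k
    · rw [eval_map]
      exact h0
  have h2 := congrArg (fun q => q.coeff k) h1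
  simpa [coeff_map] using h2

/-- evaluation of polynomials in three variables -/
noncomputable def E3 {S : Type*} [CommRing S] (x y z : S) : ℤ[X][X][X] →+* S :=
  eval₂RingHom (eval₂RingHom (eval₂RingHom (Int.castRingHom S) x) y) z

theorem E3_x {S : Type*} [CommRing S] (x y z : S) : E3 x y z (C (C X)) = x := by
  simp [E3]

theorem E3_y {S : Type*} [CommRing S] (x y z : S) : E3 x y z (C X) = y := by
  simp [E3]

theorem E3_z {S : Type*} [CommRing S] (x y z : S) : E3 x y z X = z := by
  simp [E3]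

theorem E3_ev {S : Type*} [CommRing S] (x y z : S) (e : Ex) :
    E3 x y z (e.ev (C (C X)) (C X) X) = e.ev x y z := by
  refine (Ex.ev_hom (R := ℤ[X][X][X]) (S := S) (E3 x y z) _ _ _ e).trans ?_
  rw [E3_x, E3_y, E3_z]

theorem E3_mj {S : Type*} [CommRing S] (x y z : S) (e : Ex) :
    E3 x y z (e.mj (C (C X)) (C X) X) = e.mj x y z := by
  refine (Ex.mj_hom (R := ℤ[X][X][X]) (S := S) (E3 x y z) _ _ _ e).trans ?_
  rw [E3_x, E3_y, E3_z]

/-- **Identity test.** -/
theorem Ex.zero_of (e : Ex) (x y z : ℤ) (hx : 0 ≤ x) (hy : 0 ≤ y)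
    (h0 : e.ev x y z = 0) (h1 : e.mj x y 1 < z) (h2 : e.mj x 1 1 < y) (h3 : e.mj 1 1 1 < x)
    {S : Type*} [CommRing S] (a b c : S) : e.ev a b c = 0 := by
  set p : ℤ[X][X][X] := e.ev (C (C X)) (C X) X with hp
  set P : ℤ[X][X][X] := e.mj (C (C X)) (C X) X with hP
  have g1 : Good (Lift M0) := good0.lift
  have g2 : Good (Lift (Lift M0)) := g1.lift
  have g3 : Good (Lift (Lift (Lift M0))) := g2.lift
  have hpP : Lift (Lift (Lift M0)) p P :=
    g3.ex (g2.C (g1.C good0.X)) (g2.C g1.X) g2.X e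
  have id0 : ∀ r : ℤ, Int.castRingHom ℤ r = r := fun r => by simp
  have b0 : Bd M0 (Int.castRingHom ℤ) := fun a A h => by
    rw [id0, id0]; exact h
  have b1 : ∀ t : ℤ, 0 ≤ t → Bd (Lift M0) (eval₂RingHom (Int.castRingHom ℤ) t) :=
    fun t ht => b0.lift ht
  have b2 : ∀ t s : ℤ, 0 ≤ t → 0 ≤ s →
      Bd (Lift (Lift M0)) (eval₂RingHom (eval₂RingHom (Int.castRingHom ℤ) t) s) :=
    fun t s ht hs => (b1 t ht).lift hs
  have k1 : ∀ k, eval₂RingHom (eval₂RingHom (Int.castRingHom ℤ) x) y (p.coeff k) = 0 := by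
    refine coeff_zero_of _ p z (fun k => ?_) ?_
    · refine lt_of_le_of_lt ((b2 x y hx hy _ _ (hpP k)).trans ((b2 x y hx hy).coeff hpP k)) ?_
      have := E3_mj x y (1 : ℤ) e
      rw [E3] at this
      rw [this]
      exact h1
    · have := E3_ev x y z e
      rw [E3] at this
      rw [this]
      exact h0
  have k2 : ∀ k j, eval₂RingHom (Int.castRingHom ℤ) x ((p.coeff k).coeff j) = 0 := by
    intro k
    refine coeff_zero_of _ (p.coeff k) y (fun j => ?_) (k1 k)
    refine lt_of_le_of_lt ((b1 x hx _ _ (hpP k j)).trans ((b1 x hx).coeff (hpP k) j)) ?_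
    refine lt_of_le_of_lt ((b2 x 1 hx zero_le_one).coeff hpP k) ?_
    have := E3_mj x (1 : ℤ) (1 : ℤ) e
    rw [E3] at this
    rw [this]
    exact h2
  have k3 : ∀ k j i, ((p.coeff k).coeff j).coeff i = 0 := by
    intro k j i
    have := coeff_zero_of (Int.castRingHom ℤ) ((p.coeff k).coeff j) x (fun i => ?_) (k2 k j) i
    · rwa [id0] at this
    · refine lt_of_le_of_lt ((b0 _ _ (hpP k j i)).trans (b0.coeff (hpP k j) i)) ?_
      refine lt_of_le_of_lt ((b1 1 zero_le_one).coeff (hpP k) j) ?_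
      refine lt_of_le_of_lt ((b2 1 1 zero_le_one zero_le_one).coeff hpP k) ?_
      have := E3_mj (1 : ℤ) (1 : ℤ) (1 : ℤ) e
      rw [E3] at this
      rw [this]
      exact h3
  have hz : p = 0 := by
    refine Polynomial.ext fun k => Polynomial.ext fun j => Polynomial.ext fun i => ?_
    simpa using k3 k j i
  have h4 := E3_ev a b c e
  rw [← hp, hz, map_zero] at h4
  exact h4.symm

end Pool.Agent.Helper71_KRN
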