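import Pool.Agent.Helper71_KRN.Core

/-!
# The kernel evaluator of the identity test

Everything is computed with natural numbers (a value is a pair `p, n`, meaning `p - n`).
-/

namespace Pool.Agent.Helper71_KRN

/-- value of the lowest `n` digits in base `m` at `x` -/
noncomputable def rowN (m x n : ℕ) : ℕ → ℕ :=
  Nat.rec (motive := fun _ => ℕ → ℕ) (fun _ => 0)
    (fun _ ih Q => Nat.add (Nat.mod Q m) (Nat.mul x (ih (Nat.div Q m)))) n

/-- two variables -/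
noncomputable def plnN (m x y : ℕ) (l : List ℕ) : ℕ → ℕ :=
  List.rec (motive := fun _ => ℕ → ℕ) (fun _ => 0)
    (fun n _ ih Q => Nat.add (rowN m x n Q) (Nat.mul y (ih (Nat.div Q (Nat.pow m n))))) l

/-- sum of a list -/
noncomputable def smN (l : List ℕ) : ℕ :=
  List.rec (motive := fun _ => ℕ) 0 (fun n _ ih => Nat.add n ih) l

/-- three variables -/
noncomputable def volN (m x y z : ℕ) (l : List (List ℕ)) : ℕ → ℕ :=
  List.rec (motive := fun _ => ℕ → ℕ) (fun _ => 0)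
    (fun s _ ih Q => Nat.add (plnN m x y s Q) (Nat.mul z (ih (Nat.div Q (Nat.pow m (smN s)))))) l

/-- all digits one -/
noncomputable def jrowN (x n : ℕ) : ℕ :=
  Nat.rec (motive := fun _ => ℕ) 0 (fun _ ih => Nat.add 1 (Nat.mul x ih)) n

/-- all digits one -/
noncomputable def jplnN (x y : ℕ) (l : List ℕ) : ℕ :=
  List.rec (motive := fun _ => ℕ) 0 (fun n _ ih => Nat.add (jrowN x n) (Nat.mul y ih)) l

/-- all digits one -/
noncomputable def jvolN (x y z : ℕ) (l : List (List ℕ)) : ℕ :=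
  List.rec (motive := fun _ => ℕ) 0 (fun n _ ih => Nat.add (jplnN x y n) (Nat.mul z ih)) l

/-- sum of the squares of the values -/
noncomputable def sqN (m x y z : ℕ) (sh : List (List ℕ)) (l : List ℕ) : ℕ :=
  List.rec (motive := fun _ => ℕ) 0
    (fun Q _ ih => Nat.add (Nat.pow (volN m x y z sh Q) 2) ih) l

/-- sum of the values -/
noncomputable def suN (m x y z : ℕ) (sh : List (List ℕ)) (l : List ℕ) : ℕ :=
  List.rec (motive := fun _ => ℕ) 0 (fun Q _ ih => Nat.add (volN m x y z sh Q) ih) l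

/-- length -/
noncomputable def lnN {α : Type} (l : List α) : ℕ :=
  List.rec (motive := fun _ => ℕ) 0 (fun _ _ ih => Nat.succ ih) l

/-- a monomial -/
noncomputable def monN (x y z : ℕ) (a : ℕ × ℕ × ℕ) : ℕ :=
  Nat.mul (Nat.pow x a.1) (Nat.mul (Nat.pow y a.2.1) (Nat.pow z a.2.2))

/-- positive part of `bns` -/
noncomputable def bpN (x y z : ℕ) (l : List (ℕ × (ℕ × ℕ × ℕ) × (ℕ × ℕ × ℕ) × Bool)) : ℕ :=
  List.rec (motive := fun _ => ℕ) 0
    (fun t _ ih => Nat.add (Nat.mul t.1 (bif t.2.2.2 then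
        Nat.pow (Nat.add (monN x y z t.2.1) (monN x y z t.2.2.1)) 2
      else Nat.add (Nat.pow (monN x y z t.2.1) 2) (Nat.pow (monN x y z t.2.2.1) 2))) ih) l

/-- negative part of `bns` -/
noncomputable def bnN (x y z : ℕ) (l : List (ℕ × (ℕ × ℕ × ℕ) × (ℕ × ℕ × ℕ) × Bool)) : ℕ :=
  List.rec (motive := fun _ => ℕ) 0
    (fun t _ ih => bif t.2.2.2 then ih else
      Nat.add (Nat.mul t.1 (Nat.mul 2 (Nat.mul (monN x y z t.2.1) (monN x y z t.2.2.1)))) ih) l

/-- kernel form of `jbns` -/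
noncomputable def jbN (x y z : ℕ) (l : List (ℕ × (ℕ × ℕ × ℕ) × (ℕ × ℕ × ℕ) × Bool)) : ℕ :=
  List.rec (motive := fun _ => ℕ) 0
    (fun t _ ih => Nat.add (Nat.mul t.1
      (Nat.pow (Nat.add (monN x y z t.2.1) (monN x y z t.2.2.1)) 2)) ih) l

/-- positive and negative part of the value -/
noncomputable def Ex.evp (x y z : ℕ) : Ex → ℕ × ℕ
  | .cst c => (c.toNat, (-c).toNat)
  | .vx => (x, 0)
  | .vy => (y, 0)
  | .vz => (z, 0)
  | .add a b => (Nat.add (a.evp x y z).1 (b.evp x y z).1, Nat.add (a.evp x y z).2 (b.evp x y z).2)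
  | .sub a b => (Nat.add (a.evp x y z).1 (b.evp x y z).2, Nat.add (a.evp x y z).2 (b.evp x y z).1)
  | .mul a b =>
    (Nat.add (Nat.mul (a.evp x y z).1 (b.evp x y z).1) (Nat.mul (a.evp x y z).2 (b.evp x y z).2),
      Nat.add (Nat.mul (a.evp x y z).1 (b.evp x y z).2) (Nat.mul (a.evp x y z).2 (b.evp x y z).1))
  | .pol w sh Q => (volN (Nat.pow 2 w) x y z sh Q,
      Nat.mul (Nat.pow 2 (Nat.sub w 1)) (jvolN x y z sh))
  | .sos w sh l => (Nat.add (sqN (Nat.pow 2 w) x y z sh l)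
      (Nat.mul (lnN l) (Nat.pow (Nat.mul (Nat.pow 2 (Nat.sub w 1)) (jvolN x y z sh)) 2)),
      Nat.mul (Nat.mul 2 (Nat.mul (Nat.pow 2 (Nat.sub w 1)) (jvolN x y z sh)))
        (suN (Nat.pow 2 w) x y z sh l))
  | .bin l => (bpN x y z l, bnN x y z l)

/-- kernel form of the majorant -/
noncomputable def Ex.mjN (x y z : ℕ) : Ex → ℕ
  | .cst c => c.natAbs
  | .vx => x
  | .vy => y
  | .vz => z
  | .add a b => Nat.add (a.mjN x y z) (b.mjN x y z)
  | .sub a b => Nat.add (a.mjN x y z) (b.mjN x y z)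
  | .mul a b => Nat.mul (a.mjN x y z) (b.mjN x y z)
  | .pol w sh _ => Nat.mul (Nat.pow 2 w) (jvolN x y z sh)
  | .sos w sh l => Nat.mul (lnN l) (Nat.pow (Nat.mul (Nat.pow 2 w) (jvolN x y z sh)) 2)
  | .bin l => jbN x y z l

/-- the test -/
noncomputable def chk (x y z : ℕ) (e : Ex) : Bool :=
  and (Nat.beq (e.evp x y z).1 (e.evp x y z).2)
    (and (Nat.blt (e.mjN x y 1) z) (and (Nat.blt (e.mjN x 1 1) y) (Nat.blt (e.mjN 1 1 1) x)))

/-! ## correctness -/

theorem rowN_eq (w x n Q : ℕ) :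
    ((rowN (2 ^ w) x n Q : ℕ) : ℤ) - ((2 ^ (w - 1) : ℕ) : ℤ) * jrow (x : ℤ) n =
      row w (x : ℤ) n Q := by
  induction n generalizing Q with
  | zero => simp [rowN, jrow, row]
  | succ n ih =>
    have e : rowN (2 ^ w) x (n + 1) Q = Q % 2 ^ w + x * rowN (2 ^ w) x n (Q / 2 ^ w) := rfl
    rw [e, row, jrow, ← ih]
    push_cast
    ring

theorem plnN_eq (w x y : ℕ) (l : List ℕ) (Q : ℕ) :
    ((plnN (2 ^ w) x y l Q : ℕ) : ℤ) - ((2 ^ (w - 1) : ℕ) : ℤ) * jpln (x : ℤ) (y : ℤ) l =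
      pln w (x : ℤ) (y : ℤ) l Q := by
  induction l generalizing Q with
  | nil => simp [plnN, jpln, pln]
  | cons n l ih =>
    have e : plnN (2 ^ w) x y (n :: l) Q =
        rowN (2 ^ w) x n Q + y * plnN (2 ^ w) x y l (Q / (2 ^ w) ^ n) := rfl
    rw [e, pln, jpln, ← pow_mul, ← ih, ← rowN_eq]
    push_cast
    ring

theorem smN_eq (l : List ℕ) : smN l = l.sum := by
  induction l with
  | nil => rfl
  | cons n l ih =>
    have e : smN (n :: l) = n + smN l := rfl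
    rw [e, ih, List.sum_cons]

theorem volN_eq (w x y z : ℕ) (l : List (List ℕ)) (Q : ℕ) :
    ((volN (2 ^ w) x y z l Q : ℕ) : ℤ) -
      ((2 ^ (w - 1) : ℕ) : ℤ) * jvol (x : ℤ) (y : ℤ) (z : ℤ) l =
      vol w (x : ℤ) (y : ℤ) (z : ℤ) l Q := by
  induction l generalizing Q with
  | nil => simp [volN, jvol, vol]
  | cons s l ih =>
    have e : volN (2 ^ w) x y z (s :: l) Q =
        plnN (2 ^ w) x y s Q + z * volN (2 ^ w) x y z l (Q / (2 ^ w) ^ (smN s)) := rfl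
    rw [e, vol, jvol, smN_eq, ← pow_mul, ← ih, ← plnN_eq]
    push_cast
    ring

theorem jrowN_eq (x n : ℕ) : jrowN x n = jrow x n := by
  induction n with
  | zero => rfl
  | succ n ih =>
    have e : jrowN x (n + 1) = 1 + x * jrowN x n := rfl
    rw [e, ih, jrow]

theorem jplnN_eq (x y : ℕ) (l : List ℕ) : jplnN x y l = jpln x y l := by
  induction l with
  | nil => rfl
  | cons n l ih =>
    have e : jplnN x y (n :: l) = jrowN x n + y * jplnN x y l := rfl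
    rw [e, ih, jrowN_eq, jpln]

theorem jvolN_eq (x y z : ℕ) (l : List (List ℕ)) : jvolN x y z l = jvol x y z l := by
  induction l with
  | nil => rfl
  | cons n l ih =>
    have e : jvolN x y z (n :: l) = jplnN x y n + z * jvolN x y z l := rfl
    rw [e, ih, jplnN_eq, jvol]

theorem jvol_cast (x y z : ℕ) (l : List (List ℕ)) :
    ((jvolN x y z l : ℕ) : ℤ) = jvol (x : ℤ) (y : ℤ) (z : ℤ) l := by
  rw [jvolN_eq]
  exact jvol_hom (Nat.castRingHom ℤ) x y z l

theorem lnN_eq {α : Type} (l : List α) : lnN l = l.length := by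
  induction l with
  | nil => rfl
  | cons n l ih =>
    have e : lnN (n :: l) = lnN l + 1 := rfl
    rw [e, ih, List.length_cons]

theorem sqs_eq (w x y z : ℕ) (sh : List (List ℕ)) (l : List ℕ) :
    sqs w (x : ℤ) (y : ℤ) (z : ℤ) sh l =
      ((sqN (2 ^ w) x y z sh l : ℕ) : ℤ) +
        (l.length : ℤ) * (((2 ^ (w - 1) : ℕ) : ℤ) * jvol (x : ℤ) (y : ℤ) (z : ℤ) sh) ^ 2 -
        2 * (((2 ^ (w - 1) : ℕ) : ℤ) * jvol (x : ℤ) (y : ℤ) (z : ℤ) sh) *
          ((suN (2 ^ w) x y z sh l : ℕ) : ℤ) := by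
  induction l with
  | nil => simp [sqs, sqN, suN]
  | cons Q l ih =>
    have e1 : sqN (2 ^ w) x y z sh (Q :: l) =
        volN (2 ^ w) x y z sh Q ^ 2 + sqN (2 ^ w) x y z sh l := rfl
    have e2 : suN (2 ^ w) x y z sh (Q :: l) =
        volN (2 ^ w) x y z sh Q + suN (2 ^ w) x y z sh l := rfl
    rw [sqs, ih, e1, e2, ← volN_eq, List.length_cons, Nat.cast_succ, Nat.cast_add, Nat.cast_add,
      Nat.cast_pow (volN (2 ^ w) x y z sh Q) 2]
    ring

theorem mon_cast (x y z : ℕ) (a : ℕ × ℕ × ℕ) :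
    ((monN x y z a : ℕ) : ℤ) = mon (x : ℤ) (y : ℤ) (z : ℤ) a := by
  have e : monN x y z a = x ^ a.1 * (y ^ a.2.1 * z ^ a.2.2) := rfl
  rw [e, mon]
  push_cast
  ring

theorem bns_eq (x y z : ℕ) (l : List (ℕ × (ℕ × ℕ × ℕ) × (ℕ × ℕ × ℕ) × Bool)) :
    bns (x : ℤ) (y : ℤ) (z : ℤ) l = ((bpN x y z l : ℕ) : ℤ) - ((bnN x y z l : ℕ) : ℤ) := by
  induction l with
  | nil => simp [bns, bpN, bnN]
  | cons t l ih =>
    obtain ⟨c, a, b, s⟩ := t
    cases s with
    | true =>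
      have e1 : bpN x y z ((c, a, b, true) :: l) =
          c * (monN x y z a + monN x y z b) ^ 2 + bpN x y z l := rfl
      have e2 : bnN x y z ((c, a, b, true) :: l) = bnN x y z l := rfl
      rw [bns, e1, e2, ih, if_pos rfl, ← mon_cast, ← mon_cast]
      push_cast
      ring
    | false =>
      have e1 : bpN x y z ((c, a, b, false) :: l) =
          c * (monN x y z a ^ 2 + monN x y z b ^ 2) + bpN x y z l := rfl
      have e2 : bnN x y z ((c, a, b, false) :: l) =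
          c * (2 * (monN x y z a * monN x y z b)) + bnN x y z l := rfl
      rw [bns, e1, e2, ih, if_neg (by simp), ← mon_cast, ← mon_cast]
      push_cast
      ring

theorem Ex.evp_eq (x y z : ℕ) (e : Ex) :
    (((e.evp x y z).1 : ℕ) : ℤ) - (((e.evp x y z).2 : ℕ) : ℤ) =
      e.ev (x : ℤ) (y : ℤ) (z : ℤ) := by
  induction e with
  | cst c =>
    show ((c.toNat : ℕ) : ℤ) - (((-c).toNat : ℕ) : ℤ) = (c : ℤ)
    omega
  | vx => simp [Ex.evp, Ex.ev]
  | vy => simp [Ex.evp, Ex.ev]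
  | vz => simp [Ex.evp, Ex.ev]
  | add a b ha hb =>
    show (((a.evp x y z).1 + (b.evp x y z).1 : ℕ) : ℤ) -
      (((a.evp x y z).2 + (b.evp x y z).2 : ℕ) : ℤ) = a.ev _ _ _ + b.ev _ _ _
    rw [← ha, ← hb]
    push_cast
    ring
  | sub a b ha hb =>
    show (((a.evp x y z).1 + (b.evp x y z).2 : ℕ) : ℤ) -
      (((a.evp x y z).2 + (b.evp x y z).1 : ℕ) : ℤ) = a.ev _ _ _ - b.ev _ _ _
    rw [← ha, ← hb]
    push_cast
    ring
  | mul a b ha hb =>
    show (((a.evp x y z).1 * (b.evp x y z).1 + (a.evp x y z).2 * (b.evp x y z).2 : ℕ) : ℤ) -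
      (((a.evp x y z).1 * (b.evp x y z).2 + (a.evp x y z).2 * (b.evp x y z).1 : ℕ) : ℤ) =
        a.ev _ _ _ * b.ev _ _ _
    rw [← ha, ← hb]
    push_cast
    ring
  | pol w sh Q =>
    show ((volN (2 ^ w) x y z sh Q : ℕ) : ℤ) - ((2 ^ (w - 1) * jvolN x y z sh : ℕ) : ℤ) =
      vol w _ _ _ sh Q
    rw [← volN_eq, ← jvol_cast, Nat.cast_mul]
  | sos w sh l =>
    show ((sqN (2 ^ w) x y z sh l + lnN l * (2 ^ (w - 1) * jvolN x y z sh) ^ 2 : ℕ) : ℤ) -
      ((2 * (2 ^ (w - 1) * jvolN x y z sh) * suN (2 ^ w) x y z sh l : ℕ) : ℤ) =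
      sqs w _ _ _ sh l
    rw [sqs_eq, ← jvol_cast, lnN_eq]
    push_cast
    ring
  | bin l =>
    show ((bpN x y z l : ℕ) : ℤ) - ((bnN x y z l : ℕ) : ℤ) = bns _ _ _ l
    rw [bns_eq]

theorem jbN_eq (x y z : ℕ) (l : List (ℕ × (ℕ × ℕ × ℕ) × (ℕ × ℕ × ℕ) × Bool)) :
    jbN x y z l = jbns x y z l := by
  induction l with
  | nil => rfl
  | cons t l ih =>
    have e : jbN x y z (t :: l) =
        t.1 * (mon x y z t.2.1 + mon x y z t.2.2.1) ^ 2 + jbN x y z l := rfl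
    rw [e, ih, jbns, Nat.cast_id]

theorem Ex.mjN_eq (x y z : ℕ) (e : Ex) : e.mjN x y z = e.mj x y z := by
  induction e with
  | cst c => simp [Ex.mjN, Ex.mj]
  | vx => rfl
  | vy => rfl
  | vz => rfl
  | add a b ha hb =>
    show a.mjN x y z + b.mjN x y z = a.mj x y z + b.mj x y z
    rw [ha, hb]
  | sub a b ha hb =>
    show a.mjN x y z + b.mjN x y z = a.mj x y z + b.mj x y z
    rw [ha, hb]
  | mul a b ha hb =>
    show a.mjN x y z * b.mjN x y z = a.mj x y z * b.mj x y z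
    rw [ha, hb]
  | pol w sh Q =>
    show 2 ^ w * jvolN x y z sh = ((2 ^ w : ℕ) : ℕ) * jvol x y z sh
    rw [jvolN_eq]
  | sos w sh l =>
    show lnN l * (2 ^ w * jvolN x y z sh) ^ 2 =
      ((l.length : ℕ) : ℕ) * (((2 ^ w : ℕ) : ℕ) * jvol x y z sh) ^ 2
    rw [jvolN_eq, lnN_eq]
  | bin l =>
    show jbN x y z l = jbns x y z l
    exact jbN_eq x y z l

theorem Ex.mj_cast (x y z : ℕ) (e : Ex) :
    ((e.mjN x y z : ℕ) : ℤ) = e.mj (x : ℤ) (y : ℤ) (z : ℤ) := by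
  rw [Ex.mjN_eq]
  exact Ex.mj_hom (Nat.castRingHom ℤ) x y z e

/-- **The kernel test is correct.** -/
theorem chk_sound {x y z : ℕ} {e : Ex} (h : chk x y z e = true) {S : Type*} [CommRing S]
    (a b c : S) : e.ev a b c = 0 := by
  unfold chk at h
  rw [Bool.and_eq_true, Bool.and_eq_true, Bool.and_eq_true] at h
  obtain ⟨h0, h1, h2, h3⟩ := h
  have g0 : (e.evp x y z).1 = (e.evp x y z).2 := Nat.eq_of_beq_eq_true h0
  have g1 : e.mjN x y 1 < z := by simpa [Nat.blt_eq] using h1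
  have g2 : e.mjN x 1 1 < y := by simpa [Nat.blt_eq] using h2
  have g3 : e.mjN 1 1 1 < x := by simpa [Nat.blt_eq] using h3
  refine e.zero_of (x : ℤ) (y : ℤ) (z : ℤ) (Int.natCast_nonneg _) (Int.natCast_nonneg _)
    ?_ ?_ ?_ ?_ a b c
  · rw [← Ex.evp_eq, g0, sub_self]
  · have := Ex.mj_cast x y 1 e
    rw [Nat.cast_one] at this
    rw [← this]
    exact_mod_cast g1
  · have := Ex.mj_cast x 1 1 e
    rw [Nat.cast_one] at this
    rw [← this]
    exact_mod_cast g2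
  · have := Ex.mj_cast 1 1 1 e
    rw [Nat.cast_one] at this
    rw [← this]
    exact_mod_cast g3

end Pool.Agent.Helper71_KRN
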