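import Pool.Agent.Helper71_KRN.Kern

/-!
# Nonnegativity from the kernel test

`blk`: a sum of squares of packed polynomials written as one packed polynomial.  `pos`: a polynomial
`F` with `N F = Σ g s + Σ c (m ± m')²`, `g ≥ 0`, `s ≥ 0`.
-/

namespace Pool.Agent.Helper71_KRN

theorem sqs_nonneg (w : ℕ) (x y z : ℝ) (sh : List (List ℕ)) (l : List ℕ) :
    0 ≤ sqs w x y z sh l := by
  induction l with
  | nil => exact le_rfl
  | cons Q l ih =>
    rw [sqs]
    exact add_nonneg (sq_nonneg _) ih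

theorem bns_nonneg (x y z : ℝ) (l : List (ℕ × (ℕ × ℕ × ℕ) × (ℕ × ℕ × ℕ) × Bool)) :
    0 ≤ bns x y z l := by
  induction l with
  | nil => exact le_rfl
  | cons t l ih =>
    rw [bns]
    refine add_nonneg (mul_nonneg (Nat.cast_nonneg _) ?_) ih
    by_cases h : t.2.2.2 = true
    · rw [if_pos h]; exact sq_nonneg _
    · rw [if_neg h]; exact sq_nonneg _

theorem sos_nonneg (x y z : ℝ) (w : ℕ) (sh : List (List ℕ)) (l : List ℕ) :
    0 ≤ (Ex.sos w sh l).ev x y z := sqs_nonneg w x y z sh l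

/-- **A block.** -/
theorem blk {X Y Z w : ℕ} {sh : List (List ℕ)} {l : List ℕ} {F : Ex}
    (h : chk X Y Z (.sub (.sos w sh l) F) = true) (x y z : ℝ) : 0 ≤ F.ev x y z := by
  have h1 := chk_sound h x y z
  rw [Ex.ev] at h1
  have h2 := sos_nonneg x y z w sh l
  linarith

/-- an identity -/
theorem eq_of_chk {X Y Z : ℕ} {E F : Ex} (h : chk X Y Z (.sub E F) = true) {S : Type*} [CommRing S]
    (x y z : S) : E.ev x y z = F.ev x y z := by
  have h1 := chk_sound h x y z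
  rw [Ex.ev] at h1
  exact sub_eq_zero.1 h1

/-- `Σ g s` -/
def sg : List (Ex × Ex) → Ex
  | [] => .cst 0
  | p :: l => .add (.mul p.1 p.2) (sg l)

theorem sg_nonneg (x y z : ℝ) (l : List (Ex × Ex))
    (h : ∀ p ∈ l, 0 ≤ p.1.ev x y z ∧ 0 ≤ p.2.ev x y z) : 0 ≤ (sg l).ev x y z := by
  induction l with
  | nil => simp [sg, Ex.ev]
  | cons p l ih =>
    have h1 := h p (by simp)
    have h2 := ih fun q hq => h q (by simp [hq])
    have h3 := mul_nonneg h1.1 h1.2
    rw [sg, Ex.ev, Ex.ev]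
    linarith

/-- **Nonnegativity on a region.** -/
theorem pos {X Y Z N : ℕ} {F : Ex} {gs : List (Ex × Ex)}
    {bs : List (ℕ × (ℕ × ℕ × ℕ) × (ℕ × ℕ × ℕ) × Bool)} (hN : 0 < N)
    (h : chk X Y Z (.sub (.mul (.cst (N : ℤ)) F) (.add (sg gs) (.bin bs))) = true) (x y z : ℝ)
    (hg : ∀ p ∈ gs, 0 ≤ p.1.ev x y z ∧ 0 ≤ p.2.ev x y z) : 0 ≤ F.ev x y z := by
  have h1 := chk_sound h x y z
  simp only [Ex.ev] at h1
  have h2 := sg_nonneg x y z gs hg
  have h3 := bns_nonneg x y z bs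
  have h4 : (0 : ℝ) < ((N : ℤ) : ℝ) := by exact_mod_cast hN
  have h5 : 0 ≤ ((N : ℤ) : ℝ) * F.ev x y z := by linarith
  exact nonneg_of_mul_nonneg_right h5 h4

end Pool.Agent.Helper71_KRN
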